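import Pool.Agent.Helper18.HGTop

namespace Pool.Agent.Results.MP_e8ee11_co.HighGirth

open Pool.Agent.Helper18.HG

/-- Beck–Fiala for set systems of large girth: the discrepancy is at most
`C √t (R² + √(log^(r+1) s))` for sets of size at most `s ≤ R ^ q t`, if the incidence graph has no
cycle shorter than `4 (q + r) + 4`; larger sets `S i` lose a factor `1 + |S i| / s`. -/
theorem result : ∃ C : ℝ, 0 < C ∧
    ∀ (V I : Type) [Fintype V] [DecidableEq V] [Fintype I] [DecidableEq I]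
      (S : I → Finset V) (t s q r R : ℕ),
      1 ≤ t → t ≤ s → s ≤ R ^ q * t → 2 ≤ R → 1 ≤ r → Nat.log 2 s ^ 9 ≤ t →
      (∀ v, (Finset.univ.filter fun i => v ∈ S i).card ≤ t) →
      (∀ (a : V ⊕ I) (c : (incGraph S).Walk a a), c.IsCycle → 4 * (q + r) + 4 ≤ c.length) →
      ∃ χ : V → ℤ, (∀ v, χ v = 1 ∨ χ v = -1) ∧
        ∀ i, |((∑ v ∈ S i, χ v : ℤ) : ℝ)| ≤
          C * √t * ((R : ℝ) ^ 2 + √(((Nat.log 2)^[r + 1] s : ℕ) : ℝ)) *
            (1 + ((S i).card : ℝ) / s) :=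
  main.{0, 0}

end Pool.Agent.Results.MP_e8ee11_co.HighGirth
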