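import Pool.Agent.Helper18.BGAction

open Finset

namespace Pool.Agent.Results.MP_e8ee11_co.LargeOrder

theorem result : ∃ C : ℝ, 0 < C ∧
    ∀ (G V : Type) [AddCommGroup G] [AddAction G V],
      (∀ (g : G) (v : V), g +ᵥ v = v → g = 0) →
      ∀ (ι : Type) [Fintype ι] (f : ι → V →₀ ℝ) (W : ℝ),
      (∀ i, ∀ v ∈ (f i).support, 1 ≤ |f i v|) →
      ∑ i, ∑ v ∈ (f i).support, (f i v) ^ 2 ≤ W →
      (∀ i, ∀ v ∈ (f i).support, ∀ g : G, g +ᵥ v ∈ (f i).support → g ≠ 0 →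
        ∀ k : ℕ, 0 < k → (k : ℝ) < C * W ^ 19 → k • g ≠ 0) →
      ∃ χ : V → ℝ, (∀ v, χ v = 1 ∨ χ v = -1) ∧
        ∀ i (g : G), |∑ v ∈ (f i).support, f i v * χ (g +ᵥ v)| ≤ C * √W := by
  have hC := Real.sqrt_pos.2 Helper18.BF.CC_pos
  refine ⟨2 ^ 4200 + √Helper18.BF.CC, by positivity, ?_⟩
  intro G V _ _ hfree ι _ f W hone hW hs
  have hW0 : 0 ≤ W := le_trans
    (Finset.sum_nonneg (fun i _ => Finset.sum_nonneg (fun v _ => sq_nonneg _))) hW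
  obtain ⟨χ, h1, h2⟩ := Helper18.BG.rows_order hfree f hone W hW (by
    intro i v hv g hgv hg k hk hkW
    refine hs i v hv g hgv hg k hk (lt_of_lt_of_le hkW ?_)
    exact mul_le_mul_of_nonneg_right (le_add_of_nonneg_right hC.le) (pow_nonneg hW0 19))
  refine ⟨χ, h1, ?_⟩
  intro i g
  have h3 : |∑ v ∈ (f i).support, f i v * χ (g +ᵥ v)| ≤ √Helper18.BF.CC * √W := by
    rw [← Real.sqrt_mul Helper18.BF.CC_pos.le]
    exact Real.abs_le_sqrt (h2 i g)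
  refine h3.trans ?_
  exact mul_le_mul_of_nonneg_right (le_add_of_nonneg_left (by positivity)) (Real.sqrt_nonneg _)

end Pool.Agent.Results.MP_e8ee11_co.LargeOrder
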